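import Pool.Agent.U426.TU.Stm

set_option autoImplicit false

/-! # Project TU, package ICO -/

namespace Pool.Agent.U213.TU.ICO

open Pool.Agent.U426.TU Quaternion

/-- the quaternion with the coordinates `r0, r1, r2, r3` in the basis `e` -/
def E (r0 r1 r2 r3 : K) : HK :=
  ⟨r0 + r2 / 2, r1 + r2 / 2 + r3 / 2, r2 / 2 + r3 * (ph - 1) / 2, r2 / 2 + r3 * ph / 2⟩

theorem sum_eq (r : Fin 4 → K) : ∑ m, r m • e m = E (r 0) (r 1) (r 2) (r 3) := by
  rw [Fin.sum_univ_four]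
  apply Quaternion.ext
  · simp only [Quaternion.re_add, Quaternion.re_smul, smul_eq_mul]
    show r 0 * 1 + r 1 * 0 + r 2 * (1 / 2) + r 3 * 0 = r 0 + r 2 / 2
    ring
  · simp only [Quaternion.imI_add, Quaternion.imI_smul, smul_eq_mul]
    show r 0 * 0 + r 1 * 1 + r 2 * (1 / 2) + r 3 * (1 / 2) = r 1 + r 2 / 2 + r 3 / 2
    ring
  · simp only [Quaternion.imJ_add, Quaternion.imJ_smul, smul_eq_mul]
    show r 0 * 0 + r 1 * 0 + r 2 * (1 / 2) + r 3 * ((ph - 1) / 2) = r 2 / 2 + r 3 * (ph - 1) / 2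
    ring
  · simp only [Quaternion.imK_add, Quaternion.imK_smul, smul_eq_mul]
    show r 0 * 0 + r 1 * 0 + r 2 * (1 / 2) + r 3 * (ph / 2) = r 2 / 2 + r 3 * ph / 2
    ring

/-- the coordinates of a quaternion, `K`-linear functions -/
def p0 (z : HK) : K := z.re - z.imK + (z.imK - z.imJ) * ph
def p1 (z : HK) : K := z.imI - z.imK + (z.imK - z.imJ) * (ph - 1)
def p2 (z : HK) : K := 2 * z.imK - 2 * (z.imK - z.imJ) * ph
def p3 (z : HK) : K := 2 * (z.imK - z.imJ)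

theorem ph2 : ph * ph = ph + 1 := by rw [← sq, ph_sq]

theorem E_p (z : HK) : E (p0 z) (p1 z) (p2 z) (p3 z) = z := by
  apply Quaternion.ext <;> simp only [E, p0, p1, p2, p3] <;> ring

theorem p0_E (a b c d : K) : p0 (E a b c d) = a := by simp only [E, p0]; ring
theorem p1_E (a b c d : K) : p1 (E a b c d) = b := by simp only [E, p1]; ring
theorem p2_E (a b c d : K) : p2 (E a b c d) = c := by simp only [E, p2]; ring
theorem p3_E (a b c d : K) : p3 (E a b c d) = d := by simp only [E, p3]; ring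

theorem E_inj {a b c d a' b' c' d' : K} (h : E a b c d = E a' b' c' d') :
    a = a' ∧ b = b' ∧ c = c' ∧ d = d' := by
  refine ⟨?_, ?_, ?_, ?_⟩
  · rw [← p0_E a b c d, h, p0_E]
  · rw [← p1_E a b c d, h, p1_E]
  · rw [← p2_E a b c d, h, p2_E]
  · rw [← p3_E a b c d, h, p3_E]

theorem E_mem {a b c d : K} (ha : a ∈ R) (hb : b ∈ R) (hc : c ∈ R) (hd : d ∈ R) :
    E a b c d ∈ OI := by
  refine ⟨![a, b, c, d], ?_, ?_⟩
  · intro m
    fin_cases m <;> assumption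
  · rw [sum_eq]
    rfl

theorem mem_cases {x : HK} (hx : x ∈ OI) : ∃ a b c d : K, a ∈ R ∧ b ∈ R ∧ c ∈ R ∧ d ∈ R ∧
    x = E a b c d := by
  obtain ⟨r, hr, rfl⟩ := hx
  exact ⟨r 0, r 1, r 2, r 3, hr 0, hr 1, hr 2, hr 3, sum_eq r⟩

theorem mem_iff (z : HK) : z ∈ OI ↔ p0 z ∈ R ∧ p1 z ∈ R ∧ p2 z ∈ R ∧ p3 z ∈ R := by
  constructor
  · intro h
    obtain ⟨a, b, c, d, ha, hb, hc, hd, rfl⟩ := mem_cases h
    rw [p0_E, p1_E, p2_E, p3_E]
    exact ⟨ha, hb, hc, hd⟩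
  · rintro ⟨h0, h1, h2, h3⟩
    rw [← E_p z]
    exact E_mem h0 h1 h2 h3

theorem ph_mem : ph ∈ R := ⟨0, 0, 1, 0, by push_cast; rfl⟩

theorem r2_mem : r2 ∈ R := ⟨0, 1, 0, 0, by push_cast; rfl⟩

theorem E_mul (r0 r1 r2 r3 s0 s1 s2 s3 : K) : E r0 r1 r2 r3 * E s0 s1 s2 s3 =
    E (1 * r0 * s0 + (-1) * r1 * s1 + (-1 + 1 * ph) * r1 * s2 + 1 * r1 * s3 + (-1 * ph) * r2 * s1 + (-1) * r2 * s2 + (1 - 1 * ph) * r2 * s3 + (-2) * r3 * s1 + (-1) * r3 * s2 + (-1) * r3 * s3)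
      (1 * r0 * s1 + 1 * r1 * s0 + (-1 + 1 * ph) * r1 * s2 + (2 - 1 * ph) * r1 * s3 + (2 - 1 * ph) * r2 * s1 + (2 - 1 * ph) * r2 * s3 + (-2 + 1 * ph) * r3 * s1 + (-2 + 1 * ph) * r3 * s2)
      (1 * r0 * s2 + (1 - 2 * ph) * r1 * s2 + (-3) * r1 * s3 + 1 * r2 * s0 + (-1 + 2 * ph) * r2 * s1 + 1 * r2 * s2 + (-2 + 1 * ph) * r2 * s3 + 3 * r3 * s1 + (2 - 1 * ph) * r3 * s2)
      (1 * r0 * s3 + 2 * r1 * s2 + (-1 + 2 * ph) * r1 * s3 + (-2) * r2 * s1 + (-1 + 1 * ph) * r2 * s3 + 1 * r3 * s0 + (1 - 2 * ph) * r3 * s1 + (2 - 1 * ph) * r3 * s2) := by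
  have h := ph2
  apply Quaternion.ext
  · rw [Quaternion.re_mul]
    simp only [E]
    linear_combination (-1 / 2 * r3 * s3) * h
  · rw [Quaternion.imI_mul]
    simp only [E]
    ring
  · rw [Quaternion.imJ_mul]
    simp only [E]
    linear_combination (-1 / 2 * r2 * s3 + 1 / 2 * s2 * r3 - s3 * r1 + r3 * s1) * h
  · rw [Quaternion.imK_mul]
    simp only [E]
    linear_combination (-1 / 2 * r2 * s3 + 1 / 2 * s2 * r3 - s3 * r1 + r3 * s1) * h

theorem int_mem (n : ℤ) : (n : K) ∈ R := intCast_mem R n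

theorem re_E (a b c d : K) : (E a b c d).re = a + c / 2 := rfl
theorem imI_E (a b c d : K) : (E a b c d).imI = b + c / 2 + d / 2 := rfl
theorem imJ_E (a b c d : K) : (E a b c d).imJ = c / 2 + d * (ph - 1) / 2 := rfl
theorem imK_E (a b c d : K) : (E a b c d).imK = c / 2 + d * ph / 2 := rfl

theorem E_star (a b c d : K) : star (E a b c d) = E (a + c) (-b) (-c) (-d) := by
  apply Quaternion.ext
  · rw [Quaternion.re_star, re_E, re_E]; ring
  · rw [Quaternion.imI_star, imI_E, imI_E]; ring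
  · rw [Quaternion.imJ_star, imJ_E, imJ_E]; ring
  · rw [Quaternion.imK_star, imK_E, imK_E]; ring

theorem E_smul (r a b c d : K) : r • E a b c d = E (r * a) (r * b) (r * c) (r * d) := by
  apply Quaternion.ext
  · rw [Quaternion.re_smul, re_E, re_E, smul_eq_mul]; ring
  · rw [Quaternion.imI_smul, imI_E, imI_E, smul_eq_mul]; ring
  · rw [Quaternion.imJ_smul, imJ_E, imJ_E, smul_eq_mul]; ring
  · rw [Quaternion.imK_smul, imK_E, imK_E, smul_eq_mul]; ring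

theorem E_add (a b c d a' b' c' d' : K) : E a b c d + E a' b' c' d' =
    E (a + a') (b + b') (c + c') (d + d') := by
  apply Quaternion.ext
  · rw [Quaternion.re_add, re_E, re_E, re_E]; ring
  · rw [Quaternion.imI_add, imI_E, imI_E, imI_E]; ring
  · rw [Quaternion.imJ_add, imJ_E, imJ_E, imJ_E]; ring
  · rw [Quaternion.imK_add, imK_E, imK_E, imK_E]; ring

theorem E_normSq (a b c d : K) : Quaternion.normSq (E a b c d) =
    a * a + a * c + b * b + b * c + b * d + c * c + ph * c * d + d * d := by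
  have h := ph2
  rw [Quaternion.normSq_def', re_E, imI_E, imJ_E, imK_E]
  linear_combination (1 / 2 * d * d) * h

theorem E_re (a b c d : K) : 2 * (E a b c d).re = 2 * a + c := by
  simp only [E]
  ring

theorem one_E : (1 : HK) = E 1 0 0 0 := by
  apply Quaternion.ext
  · rw [re_E, Quaternion.re_one]; ring
  · rw [imI_E, Quaternion.imI_one]; ring
  · rw [imJ_E, Quaternion.imJ_one]; ring
  · rw [imK_E, Quaternion.imK_one]; ring

theorem mul_mem {x y : HK} (hx : x ∈ OI) (hy : y ∈ OI) : x * y ∈ OI := by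
  obtain ⟨r0, r1, r2, r3, h0, h1, h2, h3, rfl⟩ := mem_cases hx
  obtain ⟨s0, s1, s2, s3, g0, g1, g2, g3, rfl⟩ := mem_cases hy
  rw [E_mul]
  have hp := ph_mem
  have e1 : (1 : K) ∈ R := R.one_mem
  have e2 : (2 : K) ∈ R := by exact_mod_cast int_mem 2
  have e3 : (3 : K) ∈ R := by exact_mod_cast int_mem 3
  refine E_mem ?_ ?_ ?_ ?_
  all_goals
    repeat' first
      | assumption
      | apply R.add_mem
      | apply R.sub_mem
      | apply R.mul_mem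
      | apply R.neg_mem

/-! ### Self-duality -/

theorem re_mul_E (t0 t1 t2 t3 s0 s1 s2 s3 : K) :
    2 * (E t0 t1 t2 t3 * E s0 s1 s2 s3).re =
      (2 * t0 + t2) * s0 + (-2 * t1 - t2 - t3) * s1 + (t0 - t1 - t2 - ph * t3) * s2 +
        (-t1 - ph * t2 - 2 * t3) * s3 := by
  rw [E_mul, re_E]
  ring

theorem self_dual (z : HK) (h : ∀ w ∈ OI, 2 * (z * w).re ∈ R) : z ∈ OI := by
  have hp := ph_mem
  have i1 : (1 : K) ∈ R := R.one_mem
  have i0 : (0 : K) ∈ R := R.zero_mem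
  have i2 : (2 : K) ∈ R := by exact_mod_cast int_mem 2
  have i3 : (3 : K) ∈ R := by exact_mod_cast int_mem 3
  have i4 : (4 : K) ∈ R := by exact_mod_cast int_mem 4
  have i6 : (6 : K) ∈ R := by exact_mod_cast int_mem 6
  rw [mem_iff]
  set t0 := p0 z with ht0
  set t1 := p1 z with ht1
  set t2 := p2 z with ht2
  set t3 := p3 z with ht3
  have hz : z = E t0 t1 t2 t3 := by rw [ht0, ht1, ht2, ht3, E_p]
  have g0 := h _ (E_mem i1 i0 i0 i0)
  have g1 := h _ (E_mem i0 i1 i0 i0)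
  have g2 := h _ (E_mem i0 i0 i1 i0)
  have g3 := h _ (E_mem i0 i0 i0 i1)
  rw [hz, re_mul_E] at g0 g1 g2 g3
  simp only [mul_one, mul_zero, add_zero, zero_add] at g0 g1 g2 g3
  have hh := ph2
  refine ⟨?_, ?_, ?_, ?_⟩
  · have e : t0 = -(1 * (2 * t0 + t2) + (2 - ph) * (-2 * t1 - t2 - t3) +
        (-3) * (t0 - t1 - t2 - ph * t3) + (-1 + 2 * ph) * (-t1 - ph * t2 - 2 * t3)) := by
      linear_combination (-2 * t2) * hh
    rw [e]
    exact R.neg_mem (R.add_mem (R.add_mem (R.add_mem (R.mul_mem i1 g0)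
      (R.mul_mem (R.sub_mem i2 hp) g1)) (R.mul_mem (R.neg_mem i3) g2))
      (R.mul_mem (R.add_mem (R.neg_mem i1) (R.mul_mem i2 hp)) g3))
  · have e : t1 = -((2 - ph) * (2 * t0 + t2) + (4 - 2 * ph) * (-2 * t1 - t2 - t3) +
        (-4 + 2 * ph) * (t0 - t1 - t2 - ph * t3) + (-3 + 2 * ph) * (-t1 - ph * t2 - 2 * t3)) := by
      linear_combination (-2 * t2 - 2 * t3) * hh
    rw [e]
    exact R.neg_mem (R.add_mem (R.add_mem (R.add_mem (R.mul_mem (R.sub_mem i2 hp) g0)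
      (R.mul_mem (R.sub_mem i4 (R.mul_mem i2 hp)) g1))
      (R.mul_mem (R.add_mem (R.neg_mem i4) (R.mul_mem i2 hp)) g2))
      (R.mul_mem (R.add_mem (R.neg_mem i3) (R.mul_mem i2 hp)) g3))
  · have e : t2 = -((-3) * (2 * t0 + t2) + (-4 + 2 * ph) * (-2 * t1 - t2 - t3) +
        6 * (t0 - t1 - t2 - ph * t3) + (2 - 4 * ph) * (-t1 - ph * t2 - 2 * t3)) := by
      linear_combination (4 * t2) * hh
    rw [e]
    exact R.neg_mem (R.add_mem (R.add_mem (R.add_mem (R.mul_mem (R.neg_mem i3) g0)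
      (R.mul_mem (R.add_mem (R.neg_mem i4) (R.mul_mem i2 hp)) g1)) (R.mul_mem i6 g2))
      (R.mul_mem (R.sub_mem i2 (R.mul_mem i4 hp)) g3))
  · have e : t3 = -((-1 + 2 * ph) * (2 * t0 + t2) + (-3 + 2 * ph) * (-2 * t1 - t2 - t3) +
        (2 - 4 * ph) * (t0 - t1 - t2 - ph * t3) + 4 * (-t1 - ph * t2 - 2 * t3)) := by
      linear_combination (4 * t3) * hh
    rw [e]
    exact R.neg_mem (R.add_mem (R.add_mem (R.add_mem
      (R.mul_mem (R.add_mem (R.neg_mem i1) (R.mul_mem i2 hp)) g0)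
      (R.mul_mem (R.add_mem (R.neg_mem i3) (R.mul_mem i2 hp)) g1))
      (R.mul_mem (R.sub_mem i2 (R.mul_mem i4 hp)) g2)) (R.mul_mem i4 g3))

/-! ### Multiples -/

theorem nat_mul_mkK (n : ℕ) (a b c d : ℚ) : (n : K) * mkK a b c d =
    mkK (n * a) (n * b) (n * c) (n * d) := by
  rw [show (n : K) = mkK n 0 0 0 by rw [← mkK_rat]; push_cast; rfl, mkK_mul]
  congr 1 <;> ring

theorem den_mul (q : ℚ) (k : ℕ) (h : q.den ∣ k) : ∃ z : ℤ, (k : ℚ) * q = z := by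
  obtain ⟨m, rfl⟩ := h
  refine ⟨m * q.num, ?_⟩
  push_cast
  have h := Rat.mul_den_eq_num q
  linear_combination (m : ℚ) * h

theorem exists_mul_mem (x : K) : ∃ n : ℕ, n ≠ 0 ∧ (n : K) * x ∈ R := by
  refine ⟨(c0 x).den * (c1 x).den * (c2 x).den * (c3 x).den, ?_, ?_⟩
  · have h0 := (c0 x).den_nz
    have h1 := (c1 x).den_nz
    have h2 := (c2 x).den_nz
    have h3 := (c3 x).den_nz
    positivity
  · set n := (c0 x).den * (c1 x).den * (c2 x).den * (c3 x).den with hn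
    obtain ⟨a, ha⟩ := den_mul (c0 x) n ⟨(c1 x).den * (c2 x).den * (c3 x).den, by rw [hn]; ring⟩
    obtain ⟨b, hb⟩ := den_mul (c1 x) n ⟨(c0 x).den * (c2 x).den * (c3 x).den, by rw [hn]; ring⟩
    obtain ⟨c, hc⟩ := den_mul (c2 x) n ⟨(c0 x).den * (c1 x).den * (c3 x).den, by rw [hn]; ring⟩
    obtain ⟨d, hd⟩ := den_mul (c3 x) n ⟨(c0 x).den * (c1 x).den * (c2 x).den, by rw [hn]; ring⟩
    refine ⟨a, b, c, d, ?_⟩
    rw [← ha, ← hb, ← hc, ← hd, ← nat_mul_mkK, mkK_eta]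

theorem exists_smul_mem (z : HK) : ∃ n : ℕ, n ≠ 0 ∧ (n : K) • z ∈ OI := by
  obtain ⟨n0, h0, g0⟩ := exists_mul_mem (p0 z)
  obtain ⟨n1, h1, g1⟩ := exists_mul_mem (p1 z)
  obtain ⟨n2, h2, g2⟩ := exists_mul_mem (p2 z)
  obtain ⟨n3, h3, g3⟩ := exists_mul_mem (p3 z)
  have hn : ∀ n : ℕ, (n : K) ∈ R := fun n => natCast_mem R n
  refine ⟨n0 * n1 * n2 * n3, by positivity, ?_⟩
  have hz : z = E (p0 z) (p1 z) (p2 z) (p3 z) := (E_p z).symm
  rw [hz, E_smul]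
  refine E_mem ?_ ?_ ?_ ?_
  · rw [show ((n0 * n1 * n2 * n3 : ℕ) : K) * p0 z = (n1 * n2 * n3 : ℕ) * (n0 * p0 z) by
      push_cast; ring]
    exact R.mul_mem (hn _) g0
  · rw [show ((n0 * n1 * n2 * n3 : ℕ) : K) * p1 z = (n0 * n2 * n3 : ℕ) * (n1 * p1 z) by
      push_cast; ring]
    exact R.mul_mem (hn _) g1
  · rw [show ((n0 * n1 * n2 * n3 : ℕ) : K) * p2 z = (n0 * n1 * n3 : ℕ) * (n2 * p2 z) by
      push_cast; ring]
    exact R.mul_mem (hn _) g2
  · rw [show ((n0 * n1 * n2 * n3 : ℕ) : K) * p3 z = (n0 * n1 * n2 : ℕ) * (n3 * p3 z) by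
      push_cast; ring]
    exact R.mul_mem (hn _) g3

/-! ### Integral coordinates -/

theorem vec_eq (w : Fin 4 × Fin 4 → ℤ) : vec w =
    E (mkK (w (0, 0)) (w (0, 1)) (w (0, 2)) (w (0, 3)))
      (mkK (w (1, 0)) (w (1, 1)) (w (1, 2)) (w (1, 3)))
      (mkK (w (2, 0)) (w (2, 1)) (w (2, 2)) (w (2, 3)))
      (mkK (w (3, 0)) (w (3, 1)) (w (3, 2)) (w (3, 3))) :=
  sum_eq fun m => mkK (w (m, 0)) (w (m, 1)) (w (m, 2)) (w (m, 3))

theorem vec_mem (w : Fin 4 × Fin 4 → ℤ) : vec w ∈ OI :=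
  ⟨fun m => mkK (w (m, 0)) (w (m, 1)) (w (m, 2)) (w (m, 3)), fun _ => ⟨_, _, _, _, rfl⟩, rfl⟩

theorem exists_vec {x : HK} (hx : x ∈ OI) : ∃ w : Fin 4 × Fin 4 → ℤ, x = vec w := by
  obtain ⟨r, hr, rfl⟩ := hx
  choose a b c d h using hr
  refine ⟨fun p => ![a p.1, b p.1, c p.1, d p.1] p.2, ?_⟩
  unfold vec
  refine Finset.sum_congr rfl fun m _ => ?_
  rw [h m]
  rfl

theorem mkK_inj {a b c d a' b' c' d' : ℚ} (h : mkK a b c d = mkK a' b' c' d') :
    a = a' ∧ b = b' ∧ c = c' ∧ d = d' :=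
  ⟨congrArg c0 h, congrArg c1 h, congrArg c2 h, congrArg c3 h⟩

theorem vec_inj : Function.Injective vec := by
  intro w w' h
  rw [vec_eq, vec_eq] at h
  obtain ⟨h0, h1, h2, h3⟩ := E_inj h
  obtain ⟨a0, a1, a2, a3⟩ := mkK_inj h0
  obtain ⟨b0, b1, b2, b3⟩ := mkK_inj h1
  obtain ⟨d0, d1, d2, d3⟩ := mkK_inj h2
  obtain ⟨f0, f1, f2, f3⟩ := mkK_inj h3
  funext ⟨i, j⟩
  fin_cases i <;> fin_cases j
  · exact_mod_cast a0
  · exact_mod_cast a1
  · exact_mod_cast a2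
  · exact_mod_cast a3
  · exact_mod_cast b0
  · exact_mod_cast b1
  · exact_mod_cast b2
  · exact_mod_cast b3
  · exact_mod_cast d0
  · exact_mod_cast d1
  · exact_mod_cast d2
  · exact_mod_cast d3
  · exact_mod_cast f0
  · exact_mod_cast f1
  · exact_mod_cast f2
  · exact_mod_cast f3

theorem vec_add (w w' : Fin 4 × Fin 4 → ℤ) : vec (w + w') = vec w + vec w' := by
  unfold vec
  rw [← Finset.sum_add_distrib]
  refine Finset.sum_congr rfl fun m _ => ?_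
  rw [← add_smul, mkK_add]
  simp only [Pi.add_apply, Int.cast_add]

/-! ### The real embeddings -/

/-- the evaluation as a ring homomorphism -/
noncomputable def evh (s t : ℝ) (hs : s ^ 2 = 2) (ht : t ^ 2 = t + 1) : K →+* ℝ where
  toFun := ev s t
  map_one' := by
    rw [← mkK_one]
    simp [ev]
  map_zero' := by
    rw [← mkK_zero]
    simp [ev]
  map_add' x y := by
    rw [← mkK_eta x, ← mkK_eta y, mkK_add]
    simp only [ev, c0_mk, c1_mk, c2_mk, c3_mk]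
    push_cast
    ring
  map_mul' x y := by
    rw [← mkK_eta x, ← mkK_eta y, mkK_mul]
    simp only [ev, c0_mk, c1_mk, c2_mk, c3_mk]
    push_cast
    linear_combination (-((c2 x : ℝ) + c3 x * s) * ((c2 y : ℝ) + c3 y * s)) * ht -
      ((c1 x : ℝ) * c1 y + (c1 x * c3 y + c3 x * c1 y) * t + c3 x * c3 y * (t + 1)) * hs

theorem normSq_tp (z : HK) (hz : z ≠ 0) : TP (Quaternion.normSq z) := by
  intro s t hs ht
  have h1 : ev s t (Quaternion.normSq z) = (evh s t hs ht z.re) ^ 2 + (evh s t hs ht z.imI) ^ 2 +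
      (evh s t hs ht z.imJ) ^ 2 + (evh s t hs ht z.imK) ^ 2 := by
    rw [Quaternion.normSq_def', ← map_pow, ← map_pow, ← map_pow, ← map_pow, ← map_add, ← map_add,
      ← map_add]
    rfl
  rw [h1]
  have h2 : ∀ x : K, x ≠ 0 → 0 < (evh s t hs ht x) ^ 2 := fun x hx =>
    lt_of_le_of_ne (sq_nonneg _) (pow_ne_zero 2 ((map_ne_zero _).2 hx)).symm
  by_contra hcon
  apply hz
  have a0 := sq_nonneg (evh s t hs ht z.re)
  have a1 := sq_nonneg (evh s t hs ht z.imI)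
  have a2 := sq_nonneg (evh s t hs ht z.imJ)
  have a3 := sq_nonneg (evh s t hs ht z.imK)
  apply Quaternion.ext
  · by_contra hne
    have := h2 _ hne
    linarith
  · by_contra hne
    have := h2 _ hne
    linarith
  · by_contra hne
    have := h2 _ hne
    linarith
  · by_contra hne
    have := h2 _ hne
    linarith

theorem normSq_zero (z : HK) (h : Quaternion.normSq z = 0) : z = 0 := by
  by_contra hz
  have h1 := normSq_tp z hz (√2) ((1 + √5) / 2) (Real.sq_sqrt (by norm_num)) (by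
    have := Real.sq_sqrt (show (0 : ℝ) ≤ 5 by norm_num)
    linear_combination (1 / 4 : ℝ) * this)
  rw [h, ← mkK_zero] at h1
  simp [ev] at h1

/-! ### The norm -/

/-- first coordinate of the norm to `ℚ(√2)` -/
def n1 (x : K) : ℚ :=
  c0 x ^ 2 + 2 * c1 x ^ 2 + c0 x * c2 x + 2 * c1 x * c3 x - c2 x ^ 2 - 2 * c3 x ^ 2

/-- second coordinate of the norm to `ℚ(√2)` -/
def n2 (x : K) : ℚ := 2 * c0 x * c1 x + c0 x * c3 x + c1 x * c2 x - 2 * c2 x * c3 x

theorem nm_eq (x : K) : nm x = n1 x ^ 2 - 2 * n2 x ^ 2 := rfl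

theorem n1_mul (x y : K) : n1 (x * y) = n1 x * n1 y + 2 * n2 x * n2 y := by
  rw [← mkK_eta x, ← mkK_eta y, mkK_mul]
  simp only [n1, n2, c0_mk, c1_mk, c2_mk, c3_mk]
  ring

theorem n2_mul (x y : K) : n2 (x * y) = n1 x * n2 y + n2 x * n1 y := by
  rw [← mkK_eta x, ← mkK_eta y, mkK_mul]
  simp only [n1, n2, c0_mk, c1_mk, c2_mk, c3_mk]
  ring

theorem nm_mul (x y : K) : nm (x * y) = nm x * nm y := by
  rw [nm_eq, nm_eq, nm_eq, n1_mul, n2_mul]
  ring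

/-! ### The package -/

theorem t_ICO : S_ICO := by
  refine ⟨?_, fun x hx y hy => mul_mem hx hy, ?_, ?_, ?_, self_dual, exists_smul_mem,
    fun x hx => exists_vec hx, vec_mem, vec_inj, vec_add, normSq_zero, normSq_tp, nm_mul⟩
  · rw [one_E]
    exact E_mem R.one_mem R.zero_mem R.zero_mem R.zero_mem
  · intro x hx
    obtain ⟨a, b, c, d, ha, hb, hc, hd, rfl⟩ := mem_cases hx
    rw [E_star]
    exact E_mem (R.add_mem ha hc) (R.neg_mem hb) (R.neg_mem hc) (R.neg_mem hd)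
  · intro r hr x hx
    obtain ⟨a, b, c, d, ha, hb, hc, hd, rfl⟩ := mem_cases hx
    rw [E_smul]
    exact E_mem (R.mul_mem hr ha) (R.mul_mem hr hb) (R.mul_mem hr hc) (R.mul_mem hr hd)
  · intro x hx
    obtain ⟨a, b, c, d, ha, hb, hc, hd, rfl⟩ := mem_cases hx
    have hp := ph_mem
    have i2 : (2 : K) ∈ R := by exact_mod_cast int_mem 2
    rw [E_normSq, E_re]
    exact ⟨R.add_mem (R.add_mem (R.add_mem (R.add_mem (R.add_mem (R.add_mem (R.add_mem
      (R.mul_mem ha ha) (R.mul_mem ha hc)) (R.mul_mem hb hb)) (R.mul_mem hb hc))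
      (R.mul_mem hb hd)) (R.mul_mem hc hc)) (R.mul_mem (R.mul_mem hp hc) hd)) (R.mul_mem hd hd),
      R.add_mem (R.mul_mem i2 ha) hc⟩

end Pool.Agent.U213.TU.ICO
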